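import Pool.Agent.Helper28.IV2.Spec

/-!
# IV2, part Z: choice of the sets
-/

set_option autoImplicit false

namespace Pool.Agent.Helper84.IV2.Z

open Filter Topology
open Pool.Agent.Helper28.IV2

open Classical in
/-- the number of places in words of length `K` beginning at `S` -/
lemma cover_le (S : Set ℕ) (K N : ℕ) :
    N ≤ mis S K N + K * nJ S 0 N := by
  have h1 : (Finset.range N).card ≤ ((Finset.range N).filter fun n => ∀ s ∈ S, s ≤ n → ¬ n < s + K).card
      + ((Finset.range N).filter fun n => ¬ ∀ s ∈ S, s ≤ n → ¬ n < s + K).card := by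
    rw [Finset.card_filter_add_card_filter_not]
  have h2 : ((Finset.range N).filter fun n => ¬ ∀ s ∈ S, s ≤ n → ¬ n < s + K) ⊆
      (((Finset.Ico 0 N).filter fun i => i ∈ S) ×ˢ Finset.range K).image fun q => q.1 + q.2 := by
    intro n hn
    rw [Finset.mem_filter] at hn
    obtain ⟨hn1, hn2⟩ := hn
    push Not at hn2
    obtain ⟨s, hs, hsn, hsK⟩ := hn2
    rw [Finset.mem_range] at hn1
    rw [Finset.mem_image]
    refine ⟨(s, n - s), ?_, by simp; omega⟩
    rw [Finset.mem_product, Finset.mem_filter, Finset.mem_Ico, Finset.mem_range]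
    exact ⟨⟨⟨by omega, by simp; omega⟩, hs⟩, by simp; omega⟩
  have h3 := (Finset.card_le_card h2).trans Finset.card_image_le
  rw [Finset.card_product, Finset.card_range] at h3
  rw [Finset.card_range] at h1
  unfold mis nJ
  rw [mul_comm K]
  omega

open Classical in
lemma nJ_le (S : Set ℕ) (N : ℕ) : nJ S 0 N ≤ N := by
  unfold nJ
  refine (Finset.card_filter_le _ _).trans ?_
  simp

open Classical in
lemma nJ_split (S : Set ℕ) (A B s t : ℕ) (hs : s ≤ A) (ht : B ≤ t) :
    nJ S 0 B ≤ nJ S 0 A + nJ S s t := by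
  unfold nJ
  rw [← Finset.card_union_add_card_inter]
  refine (Finset.card_le_card ?_).trans (Nat.le_add_right _ _)
  intro n hn
  rw [Finset.mem_filter, Finset.mem_Ico] at hn
  rw [Finset.mem_union, Finset.mem_filter, Finset.mem_filter, Finset.mem_Ico, Finset.mem_Ico]
  by_cases h : n < A
  · exact Or.inl ⟨⟨by omega, h⟩, hn.2⟩
  · exact Or.inr ⟨⟨by omega, by omega⟩, hn.2⟩

open Classical in
theorem main : S_Z := by
  intro S u v hcov
  by_cases hmis : ∀ ε : ℝ, 0 < ε → ∃ K : ℕ, ∀ᶠ N : ℕ in atTop, (mis S K N : ℝ) ≤ ε * N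
  · obtain ⟨K0, hK0⟩ := hmis (1 / 2) (by norm_num)
    obtain ⟨N0, hN0⟩ := eventually_atTop.1 hK0
    have key : ∀ M, N0 ≤ M → M ≤ 2 * K0 * nJ S 0 M := by
      intro M hM
      have h1 := hN0 M hM
      have h2 : 2 * mis S K0 M ≤ M := by
        have : (2 * mis S K0 M : ℝ) ≤ M := by linarith
        exact_mod_cast this
      have h3 := cover_le S K0 M
      nlinarith
    have hK : 0 < K0 := by
      rcases Nat.eq_zero_or_pos K0 with h | h
      · have := key (N0 + 1) (by omega)
        rw [h] at this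
        simp at this
      · exact h
    unfold Cov at hcov
    push Not at hcov
    obtain ⟨ε, hε, hcov⟩ := hcov
    have hfr : ∀ i : ℕ, ∃ᶠ N : ℕ in atTop, ε * N < uns S u v i (2 * K0 * (i + 1)) N ∧ N0 ≤ N := by
      intro i
      have h1 := hcov i (2 * K0 * (i + 1))
      have h2 : ∃ᶠ N : ℕ in atTop, ε * N < uns S u v i (2 * K0 * (i + 1)) N := by
        simpa [Filter.not_eventually, not_le] using h1
      exact h2.and_eventually (eventually_ge_atTop N0)
    obtain ⟨N, hN, hP⟩ := extraction_forall_of_frequently hfr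
    refine ⟨ε, N, fun i => (Finset.range (N i)).filter fun n => ∀ s ∈ S, s ≤ n → n < s + i →
      ∀ j, v j ≤ 2 * K0 * (i + 1) * N i → ¬ (u j ≤ s ∧ s < v j), hε, hN,
      fun i => Finset.filter_subset _ _, fun i => (hP i).1, fun i j => ?_⟩
    by_cases h : ∀ s ∈ S, u j ≤ s → s < v j → ∀ n ∈ ((Finset.range (N i)).filter fun n =>
      ∀ s ∈ S, s ≤ n → n < s + i →
      ∀ j, v j ≤ 2 * K0 * (i + 1) * N i → ¬ (u j ≤ s ∧ s < v j)), ¬ (s ≤ n ∧ n < s + i)
    · exact Or.inl h
    · right
      push Not at h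
      obtain ⟨s, hs, hus, hsv, n, hn, hsn, hni⟩ := h
      rw [Finset.mem_filter, Finset.mem_range] at hn
      have hv : 2 * K0 * (i + 1) * N i < v j := by
        by_contra hc
        exact absurd hsv (not_lt.2 (hn.2 s hs hsn hni j (not_lt.1 hc) hus))
      have h1 : N0 ≤ 2 * K0 * (i + 1) * N i := by
        have h2 : 1 ≤ 2 * K0 * (i + 1) := Nat.one_le_iff_ne_zero.2 (by positivity)
        calc N0 ≤ N i := (hP i).2
          _ = 1 * N i := (one_mul _).symm
          _ ≤ 2 * K0 * (i + 1) * N i := Nat.mul_le_mul_right _ h2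
      have h2 := key _ h1
      have h3 : (i + 1) * N i ≤ nJ S 0 (2 * K0 * (i + 1) * N i) := by
        have h4 : 2 * K0 * ((i + 1) * N i) ≤ 2 * K0 * nJ S 0 (2 * K0 * (i + 1) * N i) := by
          rw [← mul_assoc]
          exact h2
        exact Nat.le_of_mul_le_mul_left h4 (by omega)
      have h5 := nJ_split S (N i) (2 * K0 * (i + 1) * N i) (u j) (v j) (by omega) hv.le
      have h6 := nJ_le S (N i)
      have h7 : (i + 1) * N i = i * N i + N i := by ring
      omega
  · push Not at hmis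
    obtain ⟨ε, hε, hmis⟩ := hmis
    have hfr : ∀ i : ℕ, ∃ᶠ N : ℕ in atTop, ε * N < mis S i N := by
      intro i
      simpa [Filter.not_eventually, not_le] using hmis i
    obtain ⟨N, hN, hP⟩ := extraction_forall_of_frequently hfr
    refine ⟨ε, N, fun i => (Finset.range (N i)).filter fun n => ∀ s ∈ S, s ≤ n → ¬ n < s + i,
      hε, hN, fun i => Finset.filter_subset _ _, hP, fun i j => Or.inl ?_⟩
    intro s hs _ _ n hn h
    rw [Finset.mem_filter] at hn
    exact hn.2 s hs h.1 h.2

end Pool.Agent.Helper84.IV2.Z
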